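import Pool.Agent.X312.FM.Grp

/-!
# A gap law for Galois invariants and coinvariants on `Y × X ^ n`

Let `k` be a finitely generated field of characteristic zero with an embedding in `ℂ`, `ℓ` a
prime, and let `X` and `Y` be **any** smooth projective varieties over `k`. After replacing `k` by
a finite extension which depends only on `X` and `Y` we may assume that all absolute Hodge cycles
on the products of powers of `X` and `Y` are defined over `k`. Let `H(Z) = ⊕_j H^(2 j)(Z, ℚ_ℓ(j))`
with the action of the Galois group `Γ`, and let `C(Z)` be the subspace generated by the absolute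
Hodge cycles. Let `K(Z)` be the kernel of the map from the invariants to the coinvariants, that is
the space of the classes in `H(Z)` which are invariant and which are linear combinations of
classes `g x - x`. Let `b` be the sum of the Betti numbers of `X`. For all `m ≥ 1`: `K(Y × X ^ m)
= 0` **or for all** `n ≥ 1`

`dim K(Y × X ^ n) ≥ (1 - 4 (m + 3) b ^ (m + 5) log (n + 1) / n) dim C(X ^ n)`.

Nothing is assumed on `X` and `Y`. The motivic Mumford-Tate conjecture Q1 says in particular that
the identity component of the image of the Galois group is reductive, and then `K(Z) = 0` for all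
products `Z` of powers of `X` and `Y`. So one class `x ≠ 0` in `K(Y × X ^ m)` gives almost as many
independent classes in `K(Y × X ^ n)` as there are independent absolute Hodge cycles on `X ^ n`.

The proof. Identify the classes on `Y × Z` with the homomorphisms `H(Y) → H(Z)`. Two families `N'
⊂ N` of spaces of classes as above are stable under the correspondences in `C` from `Z` to `Z'`.
If they differ for `Y × P`, `P = X ^ m`, one takes an idempotent correspondence `g` on `P` of
minimal rank which does not vanish on `N(Y × P) / N'(Y × P)` and an element `z` of `g N(Y × P)`
which is not in `N'(Y × P)`. A correspondence `x` with `x z ∈ N'(Y × P)` has a nilpotent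
compression `g x g`, so the trace of `g x` vanishes; therefore `dim N(Y × Z) / N'(Y × Z)` is at
least the rank of the trace form `(u, v) ↦ tr (g v u)` for all `Z`, and for `Z = X ^ n` this rank
is compared with `dim C(X ^ n)` by the log-convexity of the sequence of these dimensions and by
the symmetric group.
-/

set_option autoImplicit false

open CategoryTheory AlgebraicGeometry

universe u v w

namespace Pool.Agent.Results.MP_de8692_ag.CoinvariantsGapLaw

open Pool.Agent.H914 VarClass Obj WeilCohomology
open Pool.Agent.X312.FM (Family IsRingFamily IsNondeg Operators IsCompatible IsInvariant IsMoved IndepMod dimOn gapBound)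
open Pool.Agent.Y133.Half (pw)

variable {k : Type u} [Field k] {𝒱 : VarClass k} {ops : CycleOps 𝒱}
  {W : WeilCohomology.{u, v} ops}

/-- The sum of the Betti numbers of `X`. -/
noncomputable def totalBetti (W : WeilCohomology.{u, v} ops) (X : 𝒱.Obj) : ℕ :=
  Module.finrank W.K (W.H X)

/-- **The gap law for the kernel of the map from the invariants to the coinvariants.** In the intended
use `C` is the family of the spaces generated by the absolute Hodge cycles, and `ρ` is the action of the
Galois group `G` on the spaces `⊕_j H^(2 j)(Z, ℚ_ℓ(j))`. Here `dimOn C Z` is the dimension of `C Z`, and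
`pw X m` is the product of `m + 1` copies of `X`. -/
theorem result (C : Family W) (hC : IsRingFamily C) {G : Type v} (ρ : Operators W G)
    (hρ : IsCompatible C ρ) (X Y : 𝒱.Obj) (hX : ∀ n, IsNondeg C (pw X n)) (m : ℕ) :
    (∀ x : W.H (Y.prod (pw X m)), IsInvariant ρ x → IsMoved ρ x → x = 0) ∨
    ∀ n : ℕ, IndepMod (fun x : W.H (Y.prod (pw X n)) => IsInvariant ρ x ∧ IsMoved ρ x)
      (⊥ : Submodule W.K _) (gapBound (totalBetti W X) (dimOn C (pw X n)) m n) :=
  Pool.Agent.X312.FM.coinv_law hC hρ X Y hX m

end Pool.Agent.Results.MP_de8692_ag.CoinvariantsGapLaw
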