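import Pool.Agent.X227.UP.MTGen

/-!
# The motivic Mumford-Tate conjecture: one finite set of factors for a whole tannakian category

Let `W` be étale cohomology with coefficients in an algebraic closure of `ℚ_ℓ` on the smooth
projective varieties over the algebraic closure of a finitely generated field `k` of characteristic
zero, with the action of the Galois group `Γ` (`GaloisData`; all varieties are defined over `k`, after
a finite extension; Tate classes are classes in `H^(2j)` on which a subgroup of finite index acts by
`χ ^ j`) and with the rational Hodge structures which it has by the comparison with the cohomology of
the complex manifolds (`HodgeData`, for an isomorphism of the coefficients with `ℂ`).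

The conjecture for a motive `M` says that for all tensor constructions on `M` the Tate classes are the
linear combinations of the Hodge classes (and that the Galois representations are semisimple).

Let `X i` be any family of odd-dimensional varieties, which may be infinite, such that homological and
numerical equivalence coincide on `X i`, the transcendental cohomology `T i` (the orthogonal
complement of all algebraic classes) is concentrated in the middle degree, the Mumford-Tate group and
also the group `Γ` act irreducibly on the Lie algebra `sp(T i)` of the operators on `T i` which are
skew for the intersection form, some element of `Γ` has two eigenvalues on `T i` whose quotient is not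
a root of unity, and these adjoint representations are pairwise not isomorphic, for both groups
(examples: general complete intersections of odd dimension, general curves). Let `Z` be ANY variety.

The realisations of the motives in the tannakian category `⟨h(Z)⟩` are, up to Tate twists and finite
direct sums, given by certain subspaces `V ⊆ H^m(Z^(n+1))`. The theorem: there is ONE finite set `B` of
indices such that for ALL `n`, all `m` and ALL subspaces `V ⊆ H^m(Z^(n+1))` and all products `P` of
powers of the `X i` (lists `L`) the conjecture for the classes in `H(P) ⊗ V` (`MTIn`: a class of degree
`2 j` is a Tate class iff it is a linear combination of Hodge classes, for all `j`) is equivalent to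
the conjecture for those subproducts `P'` of `P` which contain only factors `X i` with `i ∈ B` and for
which, for some degree of the right parity, the product of the numbers (exponent of `X i`) + 1 and the
sum of the `dim T i`, over the `i` which occur, are at most the Betti number of `Z^(n+1)`.

So for the tannakian category generated by `Z` and all (infinitely many) `X i` the conjecture for the
classes is the conjecture for the subcategory generated by `Z` and the `X i` with `i ∈ B`.

The set `B` is bounded: `∑_{i ∈ B} dim sp(T i) ≤ 2 b ^ 2` where `b` is the dimension of any sum of
cohomology groups `H^m(Z)`, `m ∈ S`, which generates the cohomology algebra of `Z`; in particular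
`b = dim H(Z)` is possible for all `Z`, and `b = 2 dim A` if `Z = A` is an abelian variety. No `i ∈ B` is
separated from `Z` both by the eigenvalues of an element of `Γ` (`MonApart`) and by Hodge types
(`TypeSep`).

The idea of the proof: if the factor `X i` matters for some power of `Z` then `sp(T i)` acts by
derivations of `H(Z^(n+1))` which can be chosen to commute with all endomorphisms of `Z^(n+1)`, in
particular with the permutations of the factors; so they are determined by their restriction to the
generators of the cohomology of one factor `Z`, and these restrictions are linearly independent for
the different `i`. The Galois representations need not be semisimple, and homological and numerical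
equivalence need not coincide on `Z`.
-/

open CategoryTheory AlgebraicGeometry

universe u

namespace Pool.Agent.Results.MP_de8692_ag.FinitelyManyFactors

open Pool.Agent.H914 Pool.Agent.H914.VarClass Pool.Agent.H914.VarClass.Obj Pool.Agent.Y132.AH
  Pool.Agent.X227.NP Pool.Agent.X227.UP

variable {k : Type u} [Field k] {𝒱 : VarClass k} {ops : CycleOps 𝒱}

theorem result (W : WeilCohomology.{u, 0} ops) [IsAlgClosed W.K] {Γ : Type} [Group Γ]
    (Ψ : HodgeData W) (G : GaloisData W Γ) {ι : Type} [DecidableEq ι] (X : ι → 𝒱.Obj)
    (hX : TwoFamily Ψ G X) (Z : 𝒱.Obj) :
    ∃ B : Finset ι, (∀ S, GenIn W Z S → ∑ i ∈ B, (trDim W (X i) + 1).choose 2 ≤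
        2 * (∑ m ∈ S, betti W Z m) ^ 2) ∧
      (∀ i ∈ B, ¬(MonApart G (X i) Z ∧ TypeSep Ψ (X i) Z)) ∧
      ∀ (n m : ℕ) (V : Set (W.H (powN Z n))), InDegree V m → ∀ L : List ι,
        (MTIn Ψ G X V L ↔ ∀ L' : List ι, L'.Sublist L → SmallDim W X (powN Z n) B L' →
          MTIn Ψ G X V L') := by
  obtain ⟨B, h1, h2, -, h3⟩ := mt_gen Ψ G Z hX
  exact ⟨B, h1, h2, h3⟩

end Pool.Agent.Results.MP_de8692_ag.FinitelyManyFactors
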