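import Pool.Agent.X312.FM.Grp

/-!
# A gap law for Galois invariant classes on `Y × X ^ n`

Let `k` be a finitely generated field of characteristic zero with an embedding in `ℂ`, `ℓ` a
prime, and let `X` and `Y` be **any** smooth projective varieties over `k`. After replacing `k` by
a finite extension which depends only on `X` and `Y` we may assume that all absolute Hodge cycles
on the products of powers of `X` and `Y` are defined over `k`. Let `H(Z) = ⊕_j H^(2 j)(Z, ℚ_ℓ(j))`
with the action of the Galois group `Γ`, and let `C(Z)` be the subspace generated by the absolute
Hodge cycles (or by the motivated cycles). Let `b` be the sum of the Betti numbers of `X`. For all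
`m ≥ 1`: **all the** `Γ`**-invariant classes on** `Y × X ^ m` **are in** `C(Y × X ^ m)`**, or for
all** `n ≥ 1` **at least**

`(1 - 4 (m + 3) b ^ (m + 5) log (n + 1) / n) dim C(X ^ n)`

**invariant classes on** `Y × X ^ n` **are linearly independent modulo** `C(Y × X ^ n)`.

Nothing is assumed on `X` and `Y`. The motivic Mumford-Tate conjecture Q1 for the motives (for
absolute Hodge cycles) generated by `X` and `Y` implies the first statement for all products of
powers, and it is equivalent to the first statement for all these products if the Galois
representations are semisimple. So if it is false for one `Y × X ^ m` in this way then it is false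
for all the varieties `Y × X ^ n` with large `n`, and to a very large extent.

The pairing on absolute Hodge cycles is nondegenerate by the Hodge index theorem.

The proof. Identify the classes on `Y × Z` with the homomorphisms `H(Y) → H(Z)`. Two families `N'
⊂ N` of spaces of classes as above are stable under the correspondences in `C` from `Z` to `Z'`.
If they differ for `Y × P`, `P = X ^ m`, one takes an idempotent correspondence `g` on `P` of
minimal rank which does not vanish on `N(Y × P) / N'(Y × P)` and an element `z` of `g N(Y × P)`
which is not in `N'(Y × P)`. A correspondence `x` with `x z ∈ N'(Y × P)` has a nilpotent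
compression `g x g`, so the trace of `g x` vanishes; therefore `dim N(Y × Z) / N'(Y × Z)` is at
least the rank of the trace form `(u, v) ↦ tr (g v u)` for all `Z`, and for `Z = X ^ n` this rank
is compared with `dim C(X ^ n)` by the log-convexity of the sequence of these dimensions and by
the symmetric group.
-/

set_option autoImplicit false

open CategoryTheory AlgebraicGeometry

universe u v w

namespace Pool.Agent.Results.MP_de8692_ag.GapLaw

open Pool.Agent.H914 VarClass Obj WeilCohomology
open Pool.Agent.X312.FM (Family Has IsRingFamily IsNondeg Operators IsCompatible IsInvariant IndepMod dimOn gapBound)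
open Pool.Agent.Y133.Half (pw)

variable {k : Type u} [Field k] {𝒱 : VarClass k} {ops : CycleOps 𝒱}
  {W : WeilCohomology.{u, v} ops}

/-- The sum of the Betti numbers of `X`. -/
noncomputable def totalBetti (W : WeilCohomology.{u, v} ops) (X : 𝒱.Obj) : ℕ :=
  Module.finrank W.K (W.H X)

/-- **The gap law for invariant classes.** In the intended use `C` is the family of the spaces
generated by the absolute Hodge cycles, and `ρ` is the action of the Galois group `G` on the spaces
`⊕_j H^(2 j)(Z, ℚ_ℓ(j))`. Here `dimOn C Z` is the dimension of `C Z`, and `pw X m` is the product of
`m + 1` copies of `X`. -/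
theorem result (C : Family W) (hC : IsRingFamily C) {G : Type v} (ρ : Operators W G)
    (hρ : IsCompatible C ρ) (X Y : 𝒱.Obj) (hX : ∀ n, IsNondeg C (pw X n)) (m : ℕ) :
    (∀ x : W.H (Y.prod (pw X m)), IsInvariant ρ x → Has C x) ∨
    ∀ n : ℕ, IndepMod (fun x : W.H (Y.prod (pw X n)) => IsInvariant ρ x) (C _)
      (gapBound (totalBetti W X) (dimOn C (pw X n)) m n) :=
  Pool.Agent.X312.FM.inv_law hC hρ X Y hX m

end Pool.Agent.Results.MP_de8692_ag.GapLaw
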