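import Pool.Agent.X227.NP.Two

/-!
# The Mumford-Tate conjecture for the products of any motive with varieties of symplectic type

Let `W` be étale cohomology with coefficients in an algebraic closure of `ℚ_ℓ` on the smooth
projective varieties over the algebraic closure of a finitely generated field `k` of characteristic
zero, with the action of the Galois group `Γ` (`GaloisData`; all varieties are defined over `k`, after
a finite extension; Tate classes are classes in `H^(2j)` on which a subgroup of finite index acts by
`χ ^ j`) and with the rational Hodge structures which it has by the comparison with the cohomology of
the complex manifolds (`HodgeData`, for an isomorphism of the coefficients with `ℂ`).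

The conjecture for a motive `M` says that for all tensor constructions on `M` the Tate classes are the
linear combinations of the Hodge classes (and that the Galois representations are semisimple). If
`V ⊆ H^m(Z)` is the realisation of a pure motive `M`, a direct summand of the motive of a variety
`Z`, and `P` is a variety, then the classes in `H(P) ⊗ V` are the classes on `h(P) ⊗ M`. We consider
ANY subspace `V ⊆ H^m(Z)`, and the products `P` of powers of the `X i` (lists `L`). `MTIn Ψ G X V L`
says that for all `j` a class of degree `2 j` in `H(P) ⊗ V` is a Tate class if and only if it is a
linear combination of Hodge classes.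

Let `X i` be any family of odd-dimensional varieties, which may be infinite, such that homological and
numerical equivalence coincide on `X i`, the transcendental cohomology `T i` (the orthogonal
complement of all algebraic classes) is concentrated in the middle degree, the Mumford-Tate group and
also the group `Γ` act irreducibly on the Lie algebra of the operators on `T i` which are skew for the
intersection form, some element of `Γ` has two eigenvalues on `T i` whose quotient is not a root of
unity, and these adjoint representations are pairwise not isomorphic, for both groups (examples:
general complete intersections of odd dimension). Let `Z` be ANY variety.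

(1) There is a finite set `B` of indices with `∑ dim T i ≤ 2 dim H(Z)` such that for ALL `m` and all
subspaces `V ⊆ H^m(Z)` the conjecture for `H(P) ⊗ V` is equivalent to the conjecture for those
subproducts with `i ∈ B` for which, for some degree of the right parity, the product of the numbers
(exponent of `X i`) + 1 and the sum of the `dim T i`, over the `i` which occur, are at most the Betti
number of `Z`. No `i ∈ B` is separated from `Z` both by eigenvalues and by Hodge types. So for given
`Z` one has to check finitely many products for each motive, and the same products for all motives.

(2) Suppose that all `X i` are separated from `Z`: by one element of `Γ` (`MonApart`: an element `g`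
with two eigenvalues `a` and `b` on `T i` such that the cohomology of `Z` is generated by stable
subspaces on which `a b / χ(g) ^ (dim X i)` is not the quotient of two eigenvalues of `g`) and by Hodge types
(`TypeSep`: the cohomology of `Z` is generated by pieces of width at most `N`, and `T i` has a Hodge
type `(p, q)` with `p - q > N`; `N = 1` if `Z` is an abelian variety). Then for all `n`, all `m` and all
subspaces `V ⊆ H^m(Z^(n+1))` the conjecture for `H(P) ⊗ V` is equivalent to the conjecture for `V`. In
particular, if it holds for the tensor powers of a motive `M` cut out in the cohomology of `Z`, then
it holds for the tensor constructions on `M` and the motives of the `X i` together.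
-/

open CategoryTheory AlgebraicGeometry

universe u

namespace Pool.Agent.Results.MP_de8692_ag.SubspacesTimesSymplecticType

open Pool.Agent.H914 Pool.Agent.H914.VarClass Pool.Agent.H914.VarClass.Obj Pool.Agent.Y132.AH
  Pool.Agent.X227.NP

variable {k : Type u} [Field k] {𝒱 : VarClass k} {ops : CycleOps 𝒱}

theorem result (W : WeilCohomology.{u, 0} ops) [IsAlgClosed W.K] {Γ : Type} [Group Γ]
    (Ψ : HodgeData W) (G : GaloisData W Γ) {ι : Type} [DecidableEq ι] (X : ι → 𝒱.Obj)
    (hX : TwoFamily Ψ G X) (Z : 𝒱.Obj) :
    (∃ B : Finset ι, ∑ i ∈ B, trDim W (X i) ≤ 2 * totDim W Z ∧
      (∀ i ∈ B, ¬(MonApart G (X i) Z ∧ TypeSep Ψ (X i) Z)) ∧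
      ∀ (m : ℕ) (V : Set (W.H Z)), InDegree V m → ∀ L : List ι,
        (MTIn Ψ G X V L ↔ ∀ L' : List ι, L'.Sublist L → SmallDim W X Z B L' →
          MTIn Ψ G X V L')) ∧
    ((∀ i, MonApart G (X i) Z ∧ TypeSep Ψ (X i) Z) →
      ∀ (n m : ℕ) (V : Set (W.H (powN Z n))), InDegree V m → ∀ L : List ι,
         (MTIn Ψ G X V L ↔ MTIn Ψ G X V [])) :=
  ⟨two_general Ψ G Z hX, fun h1 n m V hV L => two_separated Ψ G Z hX h1 n m V hV L⟩

end Pool.Agent.Results.MP_de8692_ag.SubspacesTimesSymplecticType
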